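import Mathlib

/-!
# A Besicovitch cylindrical transformation all of whose orbits are dense or discrete
-/

namespace Pool.Agent.Results.MP_c1c973_an.DenseOrDiscrete

open Topology Set Filter
open scoped BigOperators

/-- The cylindrical transformation `T_φ(x, t) = (x + α, t + φ(x))` of `X × ℝ`, as a bijection. -/
def cyl {X : Type} [AddCommGroup X] (α : X) (φ : X → ℝ) : Equiv.Perm (X × ℝ) where
  toFun z := (z.1 + α, z.2 + φ z.1)
  invFun z := (z.1 - α, z.2 - φ (z.1 - α))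
  left_inv z := by simp
  right_inv z := by simp

/-- The full orbit `{T_φ^n z : n ∈ ℤ}`. -/
def orbit {X : Type} [AddCommGroup X] (α : X) (φ : X → ℝ) (z : X × ℝ) : Set (X × ℝ) :=
  Set.range fun n : ℤ => (cyl α φ ^ n) z

/-- Each point of `O` has a neighbourhood meeting `O` only in that point. -/
def IsDiscreteOrbit {Y : Type} [TopologicalSpace Y] (O : Set Y) : Prop :=
  ∀ w ∈ O, ∃ U ∈ 𝓝 w, U ∩ O = {w}

/-! ### The moduli and the profile functions -/

/-- The moduli. -/
def q : ℕ → ℕ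
  | 0 => 4
  | k + 1 => q k * (q k ^ 3 + 1)

lemma q_succ (k : ℕ) : q (k + 1) = q k * (q k ^ 3 + 1) := rfl

lemma four_le_q (k : ℕ) : 4 ≤ q k := by
  induction k with
  | zero => exact le_refl 4
  | succ k ih => rw [q_succ]; nlinarith [Nat.zero_le (q k ^ 3)]

lemma q_pos (k : ℕ) : 0 < q k := by have := four_le_q k; omega

instance (k : ℕ) : NeZero (q k) := ⟨(q_pos k).ne'⟩

lemma q_even (k : ℕ) : 2 * (q k / 2) = q k := by
  have : 2 ∣ q k := by
    induction k with
    | zero => exact ⟨2, rfl⟩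
    | succ k ih => rw [q_succ]; exact ih.mul_right _
  omega

lemma q_dvd_succ (k : ℕ) : q k ∣ q (k + 1) := ⟨_, q_succ k⟩

lemma q_dvd {j k : ℕ} (h : j ≤ k) : q j ∣ q k := by
  induction h with
  | refl => exact dvd_rfl
  | step _ ih => exact ih.trans (q_dvd_succ _)

lemma q_mono {j k : ℕ} (h : j ≤ k) : q j ≤ q k := Nat.le_of_dvd (q_pos k) (q_dvd h)

lemma q_growth (k : ℕ) : 64 * q k ≤ q (k + 1) := by
  rw [q_succ]
  have h4 := four_le_q k
  have : 64 ≤ q k ^ 3 := by
    calc 64 = 4 ^ 3 := by norm_num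
      _ ≤ q k ^ 3 := Nat.pow_le_pow_left h4 3
  nlinarith

lemma cube_le_q (k : ℕ) : (k + 1) ^ 3 ≤ q k := by
  induction k with
  | zero => simp [q]
  | succ k ih =>
    have := q_growth k
    have h2 : (k + 1 + 1) ^ 3 ≤ 8 * (k + 1) ^ 3 := by
      calc (k + 1 + 1) ^ 3 ≤ (2 * (k + 1)) ^ 3 := Nat.pow_le_pow_left (by omega) 3
        _ = 8 * (k + 1) ^ 3 := by ring
    omega

lemma q_half_odd (k : ℕ) : ∃ m : ℕ, q (k + 1) / 2 = q k / 2 + m * q k := by
  have h1 := q_even k
  refine ⟨q k ^ 3 / 2, ?_⟩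
  have h3 : 2 * (q k ^ 3 / 2) = q k ^ 3 := by
    have : 2 ∣ q k ^ 3 := Dvd.dvd.trans ⟨q k / 2, h1.symm⟩ (dvd_pow_self _ (by norm_num))
    omega
  have h4 : q (k + 1) = 2 * (q k / 2 + q k ^ 3 / 2 * q k) := by
    rw [q_succ]
    nlinarith
  omega

/-- Large slope. -/
noncomputable def ε (k : ℕ) : ℝ := (k + 1) / q k

/-- Small slope. -/
noncomputable def η (k : ℕ) : ℝ := 1 / ((k + 1) * q k)

lemma qR_pos (k : ℕ) : (0 : ℝ) < q k := by exact_mod_cast q_pos k

lemma η_pos (k : ℕ) : 0 < η k := by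
  have := qR_pos k
  unfold η; positivity

lemma ε_pos (k : ℕ) : 0 < ε k := by
  have := qR_pos k
  unfold ε; positivity

lemma ε_mul (k : ℕ) : ε k * q k = k + 1 := by
  have := qR_pos k
  unfold ε; field_simp

lemma η_mul (k : ℕ) : η k * q k = 1 / (k + 1) := by
  have := qR_pos k
  have h2 : (0 : ℝ) < k + 1 := by positivity
  unfold η; field_simp

lemma η_le_ε (k : ℕ) : η k ≤ ε k := by
  have h1 := qR_pos k
  have h2 : (1 : ℝ) ≤ k + 1 := by have : (0 : ℝ) ≤ k := by positivity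
                                  linarith
  have h3 : η k * q k ≤ ε k * q k := by
    rw [ε_mul, η_mul]
    have : 1 / ((k : ℝ) + 1) ≤ 1 := by
      rw [div_le_one (by linarith)]; exact h2
    linarith
  exact le_of_mul_le_mul_right h3 h1

lemma ε_half (k : ℕ) : ε (k + 1) ≤ ε k / 2 := by
  have h1 := qR_pos k
  have h2 := qR_pos (k + 1)
  have h3 : (64 : ℝ) * q k ≤ q (k + 1) := by exact_mod_cast q_growth k
  have hk : (0 : ℝ) ≤ k := by positivity
  unfold ε
  rw [div_div, div_le_div_iff₀ h2 (by positivity)]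
  push_cast
  nlinarith

/-- The profile functions on `[0, q (k+1) / 2]`: slope `ε k` on both end intervals of length
`2 * q k` and slope `η k` in between. -/
noncomputable def h (k : ℕ) (u : ℝ) : ℝ :=
  η k * u + (ε k - η k) * (min u (2 * q k) + max 0 (u - (q (k + 1) / 2 - 2 * q k)))

lemma h_zero (k : ℕ) : h k 0 = 0 := by
  have h3 : (64 : ℝ) * q k ≤ q (k + 1) := by exact_mod_cast q_growth k
  have h1 := qR_pos k
  unfold h
  rw [min_eq_left (by linarith), max_eq_left (by linarith)]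
  ring

lemma h_small (k : ℕ) {u : ℝ} (hu : u ≤ 2 * q k) : h k u = ε k * u := by
  have h3 : (64 : ℝ) * q k ≤ q (k + 1) := by exact_mod_cast q_growth k
  have h1 := qR_pos k
  unfold h
  rw [min_eq_left (by linarith), max_eq_left (by linarith)]
  ring

lemma h_bounds (k : ℕ) {u v : ℝ} (huv : u ≤ v) :
    η k * (v - u) ≤ h k v - h k u ∧ h k v - h k u ≤ ε k * (v - u) := by
  have h3 : (64 : ℝ) * q k ≤ q (k + 1) := by exact_mod_cast q_growth k
  have h1 := qR_pos k
  have h5 := η_le_ε k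
  set P : ℝ → ℝ := fun u => min u (2 * q k) + max 0 (u - (q (k + 1) / 2 - 2 * q k)) with hP
  have e : h k v - h k u = η k * (v - u) + (ε k - η k) * (P v - P u) := by
    unfold h; simp only [hP]; ring
  have e1 : 0 ≤ P v - P u := by
    simp only [hP]
    have := min_le_min_right (2 * (q k : ℝ)) huv
    have := max_le_max (le_refl (0 : ℝ))
      (sub_le_sub_right huv ((q (k + 1) : ℝ) / 2 - 2 * q k))
    linarith
  have e2 : P v - P u ≤ v - u := by
    simp only [hP]
    rcases le_total u (2 * (q k : ℝ)) with a | a <;> rcases le_total v (2 * (q k : ℝ)) with b | b <;>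
    rcases le_total 0 (u - ((q (k + 1) : ℝ) / 2 - 2 * q k)) with c | c <;>
    rcases le_total 0 (v - ((q (k + 1) : ℝ) / 2 - 2 * q k)) with d | d <;>
    simp only [min_eq_left, min_eq_right, max_eq_left, max_eq_right, a, b, c, d] <;> linarith
  rw [e]
  constructor
  · nlinarith
  · nlinarith

lemma h_flat (k : ℕ) {u v : ℝ} (hu : 2 * (q k : ℝ) ≤ u) (huv : u ≤ v)
    (hv : v ≤ q (k + 1) / 2 - 2 * q k) : h k v - h k u = η k * (v - u) := by
  unfold h
  rw [min_eq_right hu, min_eq_right (hu.trans huv), max_eq_left (by linarith),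
    max_eq_left (by linarith)]
  ring

lemma h_refl (k : ℕ) (u : ℝ) : h k (q (k + 1) / 2 - u) = h k (q (k + 1) / 2) - h k u := by
  have h3 : (64 : ℝ) * q k ≤ q (k + 1) := by exact_mod_cast q_growth k
  have h1 := qR_pos k
  unfold h
  rw [min_eq_right (show 2 * (q k : ℝ) ≤ q (k + 1) / 2 by linarith),
    max_eq_right (show (0 : ℝ) ≤ q (k + 1) / 2 - (q (k + 1) / 2 - 2 * q k) by linarith)]
  have e1 : min ((q (k + 1) : ℝ) / 2 - u) (2 * q k) =
      2 * q k - max 0 (u - (q (k + 1) / 2 - 2 * q k)) := by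
    rcases le_total 0 (u - ((q (k + 1) : ℝ) / 2 - 2 * q k)) with c | c
    · rw [max_eq_right c, min_eq_left (by linarith)]; ring
    · rw [max_eq_left c, min_eq_right (by linarith)]; ring
  have e2 : max 0 ((q (k + 1) : ℝ) / 2 - u - (q (k + 1) / 2 - 2 * q k)) = 2 * q k - min u (2 * q k) := by
    rcases le_total u (2 * (q k : ℝ)) with c | c
    · rw [min_eq_left c, max_eq_right (by linarith)]; ring
    · rw [min_eq_right c, max_eq_left (by linarith)]; ring
  rw [e1, e2]
  ring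

/-- `H k = h k (q (k+1) / 2)`, the maximum of `h k`. -/
noncomputable def H (k : ℕ) : ℝ := h k (q (k + 1) / 2)

lemma H_eq (k : ℕ) : H k = ((q k : ℝ) ^ 3 + 1) / (2 * (k + 1)) + 4 * (k + 1) - 4 / (k + 1) := by
  have h3 : (64 : ℝ) * q k ≤ q (k + 1) := by exact_mod_cast q_growth k
  have h1 := qR_pos k
  have hk : (0 : ℝ) < k + 1 := by positivity
  unfold H h
  rw [min_eq_right (show 2 * (q k : ℝ) ≤ q (k + 1) / 2 by linarith),
    max_eq_right (show (0 : ℝ) ≤ q (k + 1) / 2 - (q (k + 1) / 2 - 2 * q k) by linarith)]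
  rw [q_succ]
  unfold η ε
  push_cast
  field_simp
  ring

lemma H_pos (k : ℕ) : 0 ≤ H k := by
  have h1 := qR_pos (k + 1)
  have := (h_bounds k (show (0 : ℝ) ≤ q (k + 1) / 2 by positivity)).1
  rw [h_zero] at this
  have h2 := η_pos k
  have h3 : 0 ≤ η k * ((q (k + 1) : ℝ) / 2 - 0) := by
    rw [sub_zero]; positivity
  unfold H
  linarith

/-- Partial sums of the maxima. -/
noncomputable def gs (K : ℕ) : ℝ := ∑ k ∈ Finset.range K, H k

lemma gs_succ (K : ℕ) : gs (K + 1) = gs K + H K := Finset.sum_range_succ _ _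

lemma gs_mono {j k : ℕ} (hjk : j ≤ k) : gs j ≤ gs k := by
  unfold gs
  exact Finset.sum_le_sum_of_subset_of_nonneg (Finset.range_mono hjk) fun i _ _ => H_pos i

lemma gs_nonneg (K : ℕ) : 0 ≤ gs K := Finset.sum_nonneg fun i _ => H_pos i

lemma kk_le_q (k : ℕ) : ((k : ℝ) + 1) ≤ q k ∧ ((k : ℝ) + 1) ^ 2 ≤ q k := by
  have h1 : (k + 1) ^ 3 ≤ q k := cube_le_q k
  have h2 : (k + 1) ≤ (k + 1) ^ 3 := Nat.le_self_pow (by norm_num) _
  have h3 : (k + 1) ^ 2 ≤ (k + 1) ^ 3 := Nat.pow_le_pow_right (by omega) (by norm_num)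
  exact ⟨by exact_mod_cast h2.trans h1, by exact_mod_cast h3.trans h1⟩

lemma gs_le (K : ℕ) : gs K ≤ q K := by
  induction K with
  | zero => simp [gs]
  | succ K ih =>
    rw [gs_succ, H_eq, q_succ]
    have h1 : (4 : ℝ) ≤ q K := by exact_mod_cast four_le_q K
    obtain ⟨h2, h3⟩ := kk_le_q K
    have hk : (0 : ℝ) ≤ K := by positivity
    have h4 : ((q K : ℝ) ^ 3 + 1) / (2 * (K + 1)) ≤ ((q K : ℝ) ^ 3 + 1) / 2 := by
      apply div_le_div_of_nonneg_left (by positivity) (by norm_num) (by linarith)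
    have h5 : (0 : ℝ) ≤ 4 / ((K : ℝ) + 1) := by positivity
    push_cast
    set Q : ℝ := (q K : ℝ) with hQ
    have h6 : 4 * Q ^ 3 ≤ Q * Q ^ 3 := by
      have : (0 : ℝ) ≤ Q ^ 3 := by positivity
      nlinarith
    have h7 : 16 * Q ≤ Q ^ 3 := by nlinarith [mul_nonneg (show (0:ℝ) ≤ Q by linarith) (show (0:ℝ) ≤ Q - 4 by linarith), mul_nonneg (show (0:ℝ) ≤ Q - 4 by linarith) (show (0:ℝ) ≤ Q^2 by positivity)]
    nlinarith

lemma H_large {j : ℕ} (hj : 1 ≤ j) : gs j + 20 * (j + 1) ≤ H j := by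
  have h1 : (64 : ℝ) ≤ q j := by
    have h := q_growth (j - 1)
    have h4 := four_le_q (j - 1)
    rw [show j - 1 + 1 = j by omega] at h
    exact_mod_cast (show 64 ≤ q j by omega)
  obtain ⟨h2, h3⟩ := kk_le_q j
  have hk : (0 : ℝ) ≤ j := by positivity
  have h4 := gs_le j
  rw [H_eq]
  set Q : ℝ := (q j : ℝ) with hQ
  have h5 : (4 : ℝ) / ((j : ℝ) + 1) ≤ 4 * (j + 1) := by
    rw [div_le_iff₀ (by linarith)]
    nlinarith
  have h6 : Q + 20 * ((j : ℝ) + 1) ≤ (Q ^ 3 + 1) / (2 * (j + 1)) := by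
    rw [le_div_iff₀ (by linarith)]
    have e1 : (Q + 20 * ((j : ℝ) + 1)) * (2 * (j + 1)) =
        2 * (Q * ((j : ℝ) + 1)) + 40 * ((j : ℝ) + 1) ^ 2 := by ring
    rw [e1]
    have e2 : Q * ((j : ℝ) + 1) ≤ Q * Q := by
      apply mul_le_mul_of_nonneg_left h2 (by linarith)
    have e3 : 64 * (Q * Q) ≤ Q ^ 3 := by
      have : 64 * (Q * Q) ≤ Q * (Q * Q) := mul_le_mul_of_nonneg_right h1 (by positivity)
      nlinarith
    nlinarith
  linarith

lemma ε_geom (K i : ℕ) : ε (K + i) ≤ ε K * (1 / 2) ^ i := by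
  induction i with
  | zero => simp
  | succ i ih =>
    have := ε_half (K + i)
    rw [← add_assoc, pow_succ]
    linarith

lemma ε_sum (K n : ℕ) : ∑ i ∈ Finset.range n, ε (K + i) ≤ 2 * ε K := by
  have h1 : ∑ i ∈ Finset.range n, ε (K + i) ≤ ∑ i ∈ Finset.range n, ε K * (1 / 2 : ℝ) ^ i :=
    Finset.sum_le_sum fun i _ => ε_geom K i
  rw [← Finset.mul_sum] at h1
  have h2 : ∑ i ∈ Finset.range n, (1 / 2 : ℝ) ^ i ≤ 2 := by
    rw [geom_sum_eq (by norm_num)]
    have : (0 : ℝ) < (1 / 2) ^ n := by positivity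
    rw [div_le_iff_of_neg (by norm_num)]
    linarith
  have h3 := ε_pos K
  nlinarith

lemma ε_summable : Summable ε := by
  refine Summable.of_nonneg_of_le (fun k => (ε_pos k).le) (fun k => ?_)
    ((summable_geometric_two).mul_left (ε 0))
  have := ε_geom 0 k
  rwa [zero_add] at this

lemma ε_tail (j : ℕ) : 6 * ε (j + 1) * q j * (j + 1) ≤ 1 := by
  have h1 : (4 : ℝ) ≤ q j := by exact_mod_cast four_le_q j
  obtain ⟨h2, h3⟩ := kk_le_q j
  have hk : (0 : ℝ) ≤ j := by positivity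
  unfold ε
  rw [q_succ]
  push_cast
  set Q : ℝ := (q j : ℝ) with hQ
  have hQ0 : 0 < Q := by linarith
  have e : 6 * (((j : ℝ) + 1 + 1) / (Q * (Q ^ 3 + 1))) * Q * (j + 1) =
      6 * (j + 2) * (j + 1) / (Q ^ 3 + 1) := by
    field_simp
    ring
  rw [e, div_le_one (by positivity)]
  have h7 : 16 * Q ≤ Q ^ 3 := by nlinarith [mul_nonneg (show (0:ℝ) ≤ Q by linarith) (show (0:ℝ) ≤ Q - 4 by linarith), mul_nonneg (show (0:ℝ) ≤ Q - 4 by linarith) (show (0:ℝ) ≤ Q^2 by positivity)]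
  nlinarith

/-! ### Distance to `Q ℤ` -/

/-- The distance of an integer representing `a` to `Q ℤ`. -/
def nd {Q : ℕ} (a : ZMod Q) : ℕ := a.valMinAbs.natAbs

section nd

variable {Q : ℕ}

lemma nd_neg (a : ZMod Q) : nd (-a) = nd a := ZMod.natAbs_valMinAbs_neg a

lemma nd_le [NeZero Q] (a : ZMod Q) : nd a ≤ Q / 2 := ZMod.natAbs_valMinAbs_le a

lemma nd_int_le [NeZero Q] (n : ℤ) : nd (n : ZMod Q) ≤ n.natAbs := by
  refine ZMod.natAbs_min_of_le_div_two Q _ _ ?_ (nd_le _)
  rw [ZMod.coe_valMinAbs]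

lemma nd_eq [NeZero Q] {n : ℤ} (hn : 2 * n.natAbs ≤ Q) : nd (n : ZMod Q) = n.natAbs := by
  refine le_antisymm (nd_int_le n) ?_
  refine ZMod.natAbs_min_of_le_div_two Q _ _ ?_ (by omega)
  rw [ZMod.coe_valMinAbs]

lemma nd_add_le [NeZero Q] (a b : ZMod Q) : nd (a + b) ≤ nd a + nd b :=
  (ZMod.natAbs_valMinAbs_add_le a b).trans (Int.natAbs_add_le _ _)

lemma nd_lip [NeZero Q] (a : ZMod Q) (n : ℤ) : |(nd (a + (n : ZMod Q)) : ℝ) - nd a| ≤ |(n : ℝ)| := by
  have h1 := nd_add_le a (n : ZMod Q)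
  have h2 := nd_add_le (a + (n : ZMod Q)) (-(n : ZMod Q))
  rw [nd_neg, add_neg_cancel_right] at h2
  have h3 := nd_int_le (Q := Q) n
  have h4 : (nd (a + (n : ZMod Q)) : ℝ) ≤ nd a + n.natAbs := by exact_mod_cast h1.trans (by omega)
  have h5 : (nd a : ℝ) ≤ nd (a + (n : ZMod Q)) + n.natAbs := by exact_mod_cast h2.trans (by omega)
  have h6 : (n.natAbs : ℝ) = |(n : ℝ)| := by
    rw [Nat.cast_natAbs, Int.cast_abs]
  rw [h6] at h4 h5
  rw [abs_le]
  constructor <;> linarith

lemma nd_half [NeZero Q] (hQ : 2 * (Q / 2) = Q) (a : ZMod Q) :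
    nd (a + ((Q / 2 : ℕ) : ZMod Q)) = Q / 2 - nd a := by
  have hb := nd_le a
  have ha : ((a.valMinAbs : ℤ) : ZMod Q) = a := ZMod.coe_valMinAbs a
  have hz : (((Q / 2 : ℕ) : ℤ) : ZMod Q) = -(((Q / 2 : ℕ) : ℤ) : ZMod Q) := by
    rw [eq_neg_iff_add_eq_zero]
    have : (((Q / 2 : ℕ) : ℤ) : ZMod Q) + (((Q / 2 : ℕ) : ℤ) : ZMod Q) = ((2 * (Q / 2) : ℕ) : ZMod Q) := by
      rw [Nat.cast_mul, Int.cast_natCast, Nat.cast_two, two_mul]
    rw [this, hQ, ZMod.natCast_self]
  rcases le_total 0 a.valMinAbs with h0 | h0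
  · have e : a + ((Q / 2 : ℕ) : ZMod Q) = ((a.valMinAbs - (Q / 2 : ℕ) : ℤ) : ZMod Q) := by
      rw [Int.cast_sub, ha, sub_eq_add_neg, ← hz]; norm_cast
    rw [e, nd_eq]
    · unfold nd at hb ⊢; omega
    · unfold nd at hb; omega
  · have e : a + ((Q / 2 : ℕ) : ZMod Q) = ((a.valMinAbs + (Q / 2 : ℕ) : ℤ) : ZMod Q) := by
      rw [Int.cast_add, ha]; norm_cast
    rw [e, nd_eq]
    · unfold nd at hb ⊢; omega
    · unfold nd at hb; omega

end nd

/-! ### The functions `f k` -/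

/-- The functions `f k = h k ∘ nd`. -/
noncomputable def f (k : ℕ) (a : ZMod (q (k + 1))) : ℝ := h k (nd a)

lemma h_mono (k : ℕ) {u v : ℝ} (huv : u ≤ v) : h k u ≤ h k v := by
  have h1 := (h_bounds k huv).1
  have h2 := η_pos k
  nlinarith [mul_nonneg h2.le (sub_nonneg.2 huv)]

lemma h_lip (k : ℕ) (u v : ℝ) : |h k u - h k v| ≤ ε k * |u - v| := by
  rcases le_total u v with huv | huv
  · have h1 := (h_bounds k huv).2
    have h2 := h_mono k huv
    rw [abs_of_nonpos (by linarith), abs_of_nonpos (by linarith)]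
    linarith
  · have h1 := (h_bounds k huv).2
    have h2 := h_mono k huv
    rw [abs_of_nonneg (by linarith), abs_of_nonneg (by linarith)]
    linarith

lemma f_neg (k : ℕ) (a : ZMod (q (k + 1))) : f k (-a) = f k a := by
  unfold f; rw [nd_neg]

lemma f_nonneg (k : ℕ) (a : ZMod (q (k + 1))) : 0 ≤ f k a := by
  rw [← h_zero k]; exact h_mono k (by positivity)

lemma nd_leR {Q : ℕ} [NeZero Q] (hQ : 2 * (Q / 2) = Q) (a : ZMod Q) : (nd a : ℝ) ≤ (Q : ℝ) / 2 := by
  have h1 := nd_le a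
  have h2 : 2 * nd a ≤ Q := by omega
  have h3 : 2 * (nd a : ℝ) ≤ Q := by exact_mod_cast h2
  linarith

lemma f_le_H (k : ℕ) (a : ZMod (q (k + 1))) : f k a ≤ H k :=
  h_mono k (nd_leR (q_even _) a)

lemma f_lip (k : ℕ) (a : ZMod (q (k + 1))) (n : ℤ) :
    |f k (a + (n : ZMod _)) - f k a| ≤ ε k * |(n : ℝ)| :=
  (h_lip k _ _).trans (mul_le_mul_of_nonneg_left (nd_lip a n) (ε_pos k).le)

lemma f_zero (k : ℕ) : f k 0 = 0 := by
  unfold f
  have : nd (0 : ZMod (q (k + 1))) = 0 := by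
    unfold nd; simp
  rw [this, Nat.cast_zero, h_zero]

lemma f_int_le (k : ℕ) (n : ℤ) : f k (n : ZMod _) ≤ ε k * |(n : ℝ)| := by
  have := f_lip k 0 n
  rw [zero_add, f_zero, sub_zero] at this
  exact (le_abs_self _).trans this

lemma f_eq (k : ℕ) {n : ℕ} (hn : 2 * n ≤ q (k + 1)) : f k ((n : ℤ) : ZMod _) = h k n := by
  unfold f
  rw [nd_eq (by simpa using hn)]
  simp

lemma f_half (k : ℕ) (a : ZMod (q (k + 1))) :
    f k (a + ((q (k + 1) / 2 : ℕ) : ZMod _)) = H k - f k a := by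
  unfold f H
  rw [nd_half (q_even _), ← h_refl, Nat.cast_sub (nd_le a)]
  congr 2
  have h1 : (2 : ℝ) * ((q (k + 1) / 2 : ℕ) : ℝ) = q (k + 1) := by exact_mod_cast q_even (k + 1)
  linarith

/-- Partial sums over integer points. -/
noncomputable def G (K : ℕ) (a : ℤ) : ℝ := ∑ k ∈ Finset.range K, f k (a : ZMod _)

lemma G_nonneg (K : ℕ) (a : ℤ) : 0 ≤ G K a := Finset.sum_nonneg fun _ _ => f_nonneg _ _

lemma G_le (K : ℕ) (a : ℤ) : G K a ≤ gs K := Finset.sum_le_sum fun _ _ => f_le_H _ _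

lemma G_neg (K : ℕ) (a : ℤ) : G K (-a) = G K a := by
  unfold G
  refine Finset.sum_congr rfl fun k _ => ?_
  rw [Int.cast_neg, f_neg]

lemma cast_congr {j k : ℕ} (hjk : j ≤ k) {a b : ℤ} (hab : (a : ZMod (q k)) = b) :
    (a : ZMod (q j)) = b := by
  rw [ZMod.intCast_eq_intCast_iff_dvd_sub] at hab ⊢
  exact dvd_trans (by exact_mod_cast q_dvd hjk) hab

lemma G_congr (j : ℕ) {a b : ℤ} (hab : (a : ZMod (q j)) = b) : G j a = G j b := by
  unfold G
  refine Finset.sum_congr rfl fun k hk => ?_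
  rw [cast_congr (Finset.mem_range.1 hk) hab]

lemma G_split {j J : ℕ} (hj : j ≤ J) (a : ℤ) :
    G (J + 1) a = G j a + f j (a : ZMod _) +
      ∑ i ∈ Finset.range (J - j), f (j + 1 + i) (a : ZMod _) := by
  unfold G
  rw [← Finset.sum_range_succ, ← Finset.sum_range_add (fun k => f k (a : ZMod _)) (j + 1) (J - j)]
  congr 2
  omega

lemma G_small {N j : ℕ} (hNj : N ≤ j) {y : ℕ} (hy : y < q N) :
    G j y ≤ gs N + 2 * (N + 1) := by
  have e : G j y = G N y + ∑ i ∈ Finset.range (j - N), f (N + i) ((y : ℤ) : ZMod _) := by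
    unfold G
    rw [← Finset.sum_range_add (fun k => f k ((y : ℤ) : ZMod _)) N (j - N)]
    congr 2
    omega
  rw [e]
  have h1 : ∑ i ∈ Finset.range (j - N), f (N + i) ((y : ℤ) : ZMod _) ≤
      ∑ i ∈ Finset.range (j - N), ε (N + i) * (q N : ℝ) := by
    refine Finset.sum_le_sum fun i _ => (f_int_le _ _).trans ?_
    refine mul_le_mul_of_nonneg_left ?_ (ε_pos _).le
    rw [Int.cast_natCast, abs_of_nonneg (by positivity)]
    exact_mod_cast hy.le
  rw [← Finset.sum_mul] at h1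
  have h2 := ε_sum N (j - N)
  have h3 := ε_mul N
  have h4 := qR_pos N
  have h5 := G_le N y
  nlinarith

lemma divt (g : ℕ → ℝ) (τ δ : ℝ) (hδ : 0 ≤ δ) (a b : ℕ) (hab : a ≤ b) (ha : g a ≤ τ) (hb : τ ≤ g b)
    (hs : ∀ m, a ≤ m → m < b → |g (m + 1) - g m| ≤ δ) :
    ∃ m, a ≤ m ∧ m ≤ b ∧ |g m - τ| ≤ δ := by
  induction b, hab using Nat.le_induction with
  | base => exact ⟨a, le_rfl, le_rfl, by rw [abs_of_nonneg (by linarith)]; linarith⟩
  | succ b hab ih =>
    rcases le_total τ (g b) with h1 | h1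
    · obtain ⟨m, m1, m2, m3⟩ := ih h1 fun m m1 m2 => hs m m1 (by omega)
      exact ⟨m, m1, by omega, m3⟩
    · refine ⟨b + 1, by omega, le_rfl, ?_⟩
      have h2 := (le_abs_self _).trans (hs b hab (by omega))
      rw [abs_of_nonneg (by linarith)]
      linarith

/-- The crossing lemma at a fixed scale. -/
lemma scale {N j J : ℕ} (hNj : N ≤ j) (hjJ : j ≤ J) {y : ℕ} (hy : y < q N) {τ : ℝ}
    (h1 : gs N + 2 * (N + 1) + 3 * (j + 1) + 1 ≤ τ) (h2 : τ ≤ H j - 3 * (j + 1)) :
    ∃ p : ℕ, ((p : ℤ) : ZMod (q N)) = ((y : ℤ) : ZMod (q N)) ∧ |G (J + 1) p - τ| ≤ 2 / (j + 1) ∧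
      2 * p ≤ q (J + 1) := by
  have hyj : y < q j := lt_of_lt_of_le hy (q_mono hNj)
  have hg := q_growth j
  have he := q_even (j + 1)
  have hqj := q_pos j
  set M : ℕ := (q (j + 1) / 2 - 2 * q j - y) / q j with hM
  have hM1 : y + M * q j ≤ q (j + 1) / 2 - 2 * q j := by
    have := Nat.div_mul_le_self (q (j + 1) / 2 - 2 * q j - y) (q j)
    rw [← hM] at this
    omega
  have hM2 : q (j + 1) / 2 - 2 * q j < y + (M + 1) * q j := by
    have := Nat.lt_div_mul_add (a := q (j + 1) / 2 - 2 * q j - y) hqj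
    rw [← hM] at this
    rw [add_mul, one_mul]
    omega
  have hM3 : 2 ≤ M := by
    by_contra hlt
    push Not at hlt
    have : (M + 1) * q j ≤ 2 * q j := Nat.mul_le_mul_right _ (by omega)
    omega
  have hj0 : (0 : ℝ) < (j : ℝ) + 1 := by positivity
  have hqR := qR_pos j
  -- the tail
  have htail : ∀ a : ℕ, a ≤ 3 * q j → ∑ i ∈ Finset.range (J - j), ε (j + 1 + i) * (a : ℝ) ≤
      (a : ℝ) / q j * (1 / (3 * (j + 1))) := by
    intro a _
    rw [← Finset.sum_mul]
    have t1 := ε_sum (j + 1) (J - j)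
    have t2 := ε_tail j
    have t3 : 2 * ε (j + 1) ≤ 1 / (3 * (j + 1)) / q j := by
      rw [div_div, le_div_iff₀ (by positivity)]
      nlinarith
    calc (∑ i ∈ Finset.range (J - j), ε (j + 1 + i)) * (a : ℝ) ≤
        1 / (3 * (j + 1)) / q j * a :=
          mul_le_mul_of_nonneg_right (t1.trans t3) (by positivity)
      _ = (a : ℝ) / q j * (1 / (3 * (j + 1))) := by ring
  -- periodicity
  have hper : ∀ m : ℕ, G j ((y + m * q j : ℕ) : ℤ) = G j (y : ℤ) := by
    intro m
    refine G_congr j ?_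
    rw [ZMod.intCast_eq_intCast_iff_dvd_sub]
    exact ⟨-(m : ℤ), by push_cast; ring⟩
  have hlev : ∀ m : ℕ, m ≤ M → 2 * (y + m * q j) ≤ q (j + 1) := by
    intro m hm
    have : m * q j ≤ M * q j := Nat.mul_le_mul_right _ hm
    omega
  have hfin : (∃ m, 2 ≤ m ∧ m ≤ M ∧ |G (J + 1) ((y + m * q j : ℕ) : ℤ) - τ| ≤ 2 / (j + 1)) →
      ∃ p : ℕ, ((p : ℤ) : ZMod (q N)) = ((y : ℤ) : ZMod (q N)) ∧ |G (J + 1) p - τ| ≤ 2 / (j + 1) ∧
      2 * p ≤ q (J + 1) := by
    rintro ⟨m, m1, m2, m3⟩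
    refine ⟨y + m * q j, ?_, m3, ?_⟩
    · rw [ZMod.intCast_eq_intCast_iff_dvd_sub]
      obtain ⟨c, hc⟩ := q_dvd hNj
      exact ⟨-(m : ℤ) * c, by rw [hc]; push_cast; ring⟩
    · exact (hlev m m2).trans (q_mono (by omega))
  refine hfin (divt (fun m => G (J + 1) ((y + m * q j : ℕ) : ℤ)) τ (2 / (j + 1))
    (by positivity) 2 M hM3 ?_ ?_ ?_)
  · -- start
    refine le_trans ?_ h1
    rw [G_split hjJ, hper]
    have s1 := G_small hNj hy
    have s2 : ((y + 2 * q j : ℕ) : ℝ) ≤ 3 * q j := by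
      exact_mod_cast (show y + 2 * q j ≤ 3 * q j by omega)
    have s3 : f j (((y + 2 * q j : ℕ) : ℤ) : ZMod _) ≤ 3 * (j + 1) := by
      refine (f_int_le _ _).trans ?_
      rw [Int.cast_natCast, abs_of_nonneg (by positivity), ← ε_mul j]
      have := mul_le_mul_of_nonneg_left s2 (ε_pos j).le
      linarith
    have s4 : ∑ i ∈ Finset.range (J - j), f (j + 1 + i) (((y + 2 * q j : ℕ) : ℤ) : ZMod _) ≤ 1 := by
      refine (Finset.sum_le_sum fun i _ => f_int_le _ _).trans ?_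
      rw [show |(((y + 2 * q j : ℕ) : ℤ) : ℝ)| = ((y + 2 * q j : ℕ) : ℝ) by
        rw [Int.cast_natCast, abs_of_nonneg (by positivity)]]
      refine (htail (y + 2 * q j) (by omega)).trans ?_
      have s5 : ((y + 2 * q j : ℕ) : ℝ) / q j ≤ 3 := by
        rw [div_le_iff₀ hqR]; exact s2
      have s6 : (1 : ℝ) / (3 * (j + 1)) ≤ 1 / 3 := by
        apply div_le_div_of_nonneg_left (by norm_num) (by norm_num)
        have : (0 : ℝ) ≤ j := by positivity
        linarith
      calc ((y + 2 * q j : ℕ) : ℝ) / q j * (1 / (3 * (j + 1))) ≤ 3 * (1 / 3) :=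
            mul_le_mul s5 s6 (by positivity) (by norm_num)
        _ = 1 := by norm_num
    linarith
  · -- end
    refine h2.trans ?_
    rw [G_split hjJ]
    have s1 := G_nonneg j ((y + M * q j : ℕ) : ℤ)
    have s4 : 0 ≤ ∑ i ∈ Finset.range (J - j), f (j + 1 + i) (((y + M * q j : ℕ) : ℤ) : ZMod _) :=
      Finset.sum_nonneg fun _ _ => f_nonneg _ _
    rw [f_eq j (hlev M le_rfl)]
    have s5 : (q (j + 1) : ℝ) / 2 - 3 * q j ≤ ((y + M * q j : ℕ) : ℝ) := by
      have : q (j + 1) ≤ 2 * (y + M * q j) + 6 * q j := by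
        rw [add_mul, one_mul] at hM2
        omega
      have : (q (j + 1) : ℝ) ≤ 2 * ((y + M * q j : ℕ) : ℝ) + 6 * q j := by exact_mod_cast this
      linarith
    have s6 := h_mono j s5
    have s7 : h j ((q (j + 1) : ℝ) / 2 - 3 * q j) = H j - h j (3 * q j) := h_refl j _
    have s8 : h j (3 * q j) ≤ 3 * (j + 1) := by
      have := (h_bounds j (show (0 : ℝ) ≤ 3 * q j by positivity)).2
      rw [h_zero] at this
      have := ε_mul j
      linarith
    linarith
  · -- steps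
    intro m m1 m2
    rw [G_split hjJ, G_split hjJ, hper, hper]
    have e0 : y + (m + 1) * q j = (y + m * q j) + q j := by ring
    have hm2 : (m + 1) * q j ≤ M * q j := Nat.mul_le_mul_right _ m2
    have hm1 : 2 * q j ≤ m * q j := Nat.mul_le_mul_right _ m1
    have s1 : f j (((y + (m + 1) * q j : ℕ) : ℤ) : ZMod _) - f j (((y + m * q j : ℕ) : ℤ) : ZMod _) =
        1 / (j + 1) := by
      rw [f_eq j (hlev _ m2), f_eq j (hlev _ (by omega)), h_flat]
      · rw [e0, ← η_mul j]; push_cast; ring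
      · exact_mod_cast (show 2 * q j ≤ y + m * q j by omega)
      · exact_mod_cast (show y + m * q j ≤ y + (m + 1) * q j by omega)
      · have : 2 * (y + (m + 1) * q j) + 4 * q j ≤ q (j + 1) := by omega
        have : 2 * ((y + (m + 1) * q j : ℕ) : ℝ) + 4 * q j ≤ q (j + 1) := by exact_mod_cast this
        linarith
    have s2 : |∑ i ∈ Finset.range (J - j), f (j + 1 + i) (((y + (m + 1) * q j : ℕ) : ℤ) : ZMod _) -
        ∑ i ∈ Finset.range (J - j), f (j + 1 + i) (((y + m * q j : ℕ) : ℤ) : ZMod _)| ≤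
        1 / (3 * (j + 1)) := by
      rw [← Finset.sum_sub_distrib]
      refine (Finset.abs_sum_le_sum_abs _ _).trans ?_
      have : ∀ i ∈ Finset.range (J - j),
          |f (j + 1 + i) (((y + (m + 1) * q j : ℕ) : ℤ) : ZMod _) -
            f (j + 1 + i) (((y + m * q j : ℕ) : ℤ) : ZMod _)| ≤ ε (j + 1 + i) * (q j : ℝ) := by
        intro i _
        have := f_lip (j + 1 + i) (((y + m * q j : ℕ) : ℤ) : ZMod _) (q j)
        have e1 : |((q j : ℤ) : ℝ)| = (q j : ℝ) := by
          rw [Int.cast_natCast, abs_of_nonneg (by positivity)]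
        rw [← Int.cast_add, ← Nat.cast_add, ← e0, e1] at this
        exact this
      refine (Finset.sum_le_sum this).trans ((htail (q j) (by omega)).trans ?_)
      rw [div_self hqR.ne', one_mul]
    have s3 : (1 : ℝ) / (3 * (j + 1)) ≤ 1 / (j + 1) := by
      apply div_le_div_of_nonneg_left (by norm_num) (by positivity)
      linarith
    rw [abs_le] at s2 ⊢
    have s4 : (2 : ℝ) / (j + 1) = 1 / (j + 1) + 1 / (j + 1) := by ring
    have s5 : (0 : ℝ) < 1 / (j + 1) := by positivity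
    constructor <;> linarith [s2.1, s2.2]

/-- The crossing lemma. -/
lemma low_int {N J : ℕ} (hN : 1 ≤ N) (hNJ : N ≤ J) {y : ℕ} (hy : y < q N) {τ : ℝ}
    (h1 : gs N + 2 * (N + 1) + 3 * (N + 1) + 1 ≤ τ) (h2 : τ ≤ gs (J + 1) / 2) :
    ∃ p : ℕ, ((p : ℤ) : ZMod (q N)) = ((y : ℤ) : ZMod (q N)) ∧ |G (J + 1) p - τ| ≤ 2 / (N + 1) ∧
      2 * p ≤ q (J + 1) := by
  classical
  set P : ℕ → Prop := fun j => N ≤ j ∧ gs N + 2 * (N + 1) + 3 * ((j : ℝ) + 1) + 1 ≤ τ with hP
  have hPN : P N := ⟨le_rfl, h1⟩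
  obtain ⟨j1, j2⟩ : P (Nat.findGreatest P J) := Nat.findGreatest_spec hNJ hPN
  have j3 : Nat.findGreatest P J ≤ J := Nat.findGreatest_le J
  have j4 : ∀ k, Nat.findGreatest P J < k → k ≤ J → ¬ P k := fun k => Nat.findGreatest_is_greatest
  generalize Nat.findGreatest P J = j at j1 j2 j3 j4
  have h3 : τ ≤ H j - 3 * (j + 1) := by
    have hl := H_large (hN.trans j1)
    rcases eq_or_lt_of_le j3 with e | e
    · subst e
      rw [gs_succ] at h2
      have := gs_nonneg j
      have hk : (0 : ℝ) ≤ j := by positivity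
      linarith
    · have h4 := j4 (j + 1) (by omega) (by omega)
      simp only [hP, not_and, not_le] at h4
      have h5 := h4 (by omega)
      push_cast at h5
      have h6 := gs_mono j1
      have h7 : (N : ℝ) ≤ j := by exact_mod_cast j1
      have hk : (0 : ℝ) ≤ j := by positivity
      linarith
  obtain ⟨p, p1, p2, p3⟩ := scale (J := J) j1 j3 hy j2 h3
  refine ⟨p, p1, p2.trans ?_, p3⟩
  have h7 : (N : ℝ) ≤ j := by exact_mod_cast j1
  apply div_le_div_of_nonneg_left (by norm_num) (by positivity)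
  linarith

/-! ### The odometer -/

/-- The inverse limit of the groups `ZMod (q k)`. -/
def X : AddSubgroup (∀ k, ZMod (q k)) where
  carrier := {x | ∀ k, ZMod.castHom (q_dvd_succ k) (ZMod (q k)) (x (k + 1)) = x k}
  add_mem' := by
    intro a b ha hb k
    rw [Pi.add_apply, map_add, ha k, hb k, Pi.add_apply]
  zero_mem' := by intro k; simp
  neg_mem' := by
    intro a ha k
    rw [Pi.neg_apply, map_neg, ha k, Pi.neg_apply]

lemma X_mem (x : X) (k : ℕ) :
    ZMod.castHom (q_dvd_succ k) (ZMod (q k)) (x.1 (k + 1)) = x.1 k := x.2 k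

lemma isClosed_X : IsClosed (X : Set (∀ k, ZMod (q k))) := by
  have : (X : Set (∀ k, ZMod (q k))) =
      ⋂ k, {x | ZMod.castHom (q_dvd_succ k) (ZMod (q k)) (x (k + 1)) = x k} := by
    ext x
    simp only [Set.mem_iInter]
    exact Iff.rfl
  rw [this]
  exact isClosed_iInter fun k => isClosed_eq
    (continuous_of_discreteTopology.comp (continuous_apply (k + 1))) (continuous_apply k)

instance : CompactSpace X := isCompact_iff_compactSpace.1 isClosed_X.isCompact

instance : TopologicalSpace.MetrizableSpace (∀ k, ZMod (q k)) := inferInstance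

instance : TopologicalSpace.MetrizableSpace X :=
  Topology.IsEmbedding.subtypeVal.metrizableSpace

/-- The rotation element. -/
def α : X := ⟨fun _ => 1, fun _ => map_one _⟩

lemma smul_α (n : ℤ) (k : ℕ) : (n • α).1 k = (n : ZMod (q k)) := by
  change n • (1 : ZMod (q k)) = _
  simp

lemma add_smul_α (x : X) (n : ℤ) (k : ℕ) : (x + n • α).1 k = x.1 k + (n : ZMod (q k)) := by
  rw [← smul_α]; rfl

/-- The element of order two. -/
def θ : X := ⟨fun k => ((q k / 2 : ℕ) : ZMod (q k)), fun k => by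
  obtain ⟨m, hm⟩ := q_half_odd k
  rw [map_natCast, hm, Nat.cast_add, Nat.cast_mul, ZMod.natCast_self, mul_zero, add_zero]⟩

lemma add_θ (x : X) (k : ℕ) : (x + θ).1 k = x.1 k + ((q k / 2 : ℕ) : ZMod (q k)) := rfl

lemma θ_add_θ : θ + θ = 0 := by
  apply Subtype.ext
  funext k
  change ((q k / 2 : ℕ) : ZMod (q k)) + ((q k / 2 : ℕ) : ZMod (q k)) = 0
  rw [← Nat.cast_add, ← two_mul, q_even, ZMod.natCast_self]

lemma X_cast {j K : ℕ} (hjK : j ≤ K) (x : X) {a : ℤ} (ha : (a : ZMod (q K)) = x.1 K) :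
    (a : ZMod (q j)) = x.1 j := by
  induction K, hjK using Nat.le_induction with
  | base => exact ha
  | succ K hjK ih =>
    apply ih
    rw [← X_mem, ← ha, map_intCast]

/-- `F k x = f k (x_{k+1})`. -/
noncomputable def F (k : ℕ) (x : X) : ℝ := f k (x.1 (k + 1))

lemma F_nonneg (k : ℕ) (x : X) : 0 ≤ F k x := f_nonneg _ _

lemma F_diff (k : ℕ) (x : X) (n : ℤ) : |F k (x + n • α) - F k x| ≤ ε k * |(n : ℝ)| := by
  unfold F
  rw [add_smul_α]
  exact f_lip _ _ _

lemma F_neg (k : ℕ) (x : X) : F k (-x) = F k x := f_neg _ _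

lemma F_θ (k : ℕ) (x : X) : F k (x + θ) = H k - F k x := by
  unfold F
  rw [add_θ, f_half]

lemma continuous_F (k : ℕ) : Continuous (F k) :=
  continuous_of_discreteTopology.comp ((continuous_apply (k + 1)).comp continuous_subtype_val)

/-- The cocycle. -/
noncomputable def S (n : ℤ) (x : X) : ℝ := ∑' k, (F k (x + n • α) - F k x)

/-- The function `φ`. -/
noncomputable def φ (x : X) : ℝ := S 1 x

lemma S_summable (n : ℤ) (x : X) : Summable fun k => F k (x + n • α) - F k x :=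
  Summable.of_norm_bounded (ε_summable.mul_right |(n : ℝ)|) fun k => F_diff k x n

lemma S_add (m n : ℤ) (x : X) : S (m + n) x = S m x + S n (x + m • α) := by
  unfold S
  rw [← (S_summable m x).tsum_add (S_summable n (x + m • α))]
  refine tsum_congr fun k => ?_
  rw [add_assoc, ← add_smul]
  ring

lemma S_neg (n : ℤ) (x : X) : S n (-x) = S (-n) x := by
  unfold S
  refine tsum_congr fun k => ?_
  rw [F_neg, ← F_neg k (-x + n • α)]
  congr 2
  rw [neg_add, neg_neg, neg_smul]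

lemma S_θ (n : ℤ) (x : X) : S n (x + θ) = - S n x := by
  unfold S
  rw [← tsum_neg]
  refine tsum_congr fun k => ?_
  rw [add_right_comm, F_θ, F_θ]
  ring

lemma S_zero (x : X) : S 0 x = 0 := by
  unfold S
  simp

lemma continuous_φ : Continuous φ := by
  unfold φ S
  refine continuous_tsum (u := fun k => ε k * |((1 : ℤ) : ℝ)|) (fun k => ?_)
    (ε_summable.mul_right _) (fun k x => F_diff k x 1)
  exact ((continuous_F k).comp (continuous_id.add continuous_const)).sub (continuous_F k)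

lemma cyl_zpow (n : ℤ) (x : X) (t : ℝ) : (cyl α φ ^ n) (x, t) = (x + n • α, t + S n x) := by
  induction n using Int.induction_on generalizing x t with
  | zero => simp [S_zero]
  | succ n ih =>
    rw [add_comm ((n : ℤ)) 1, zpow_add, zpow_one, Equiv.Perm.mul_apply, ih]
    change (x + (n : ℤ) • α + α, t + S n x + φ (x + (n : ℤ) • α)) = _
    rw [add_comm (1 : ℤ), S_add, add_smul, one_smul, add_assoc, add_assoc]
    rfl
  | pred n ih =>
    rw [sub_eq_add_neg, add_comm (-(n : ℤ)) (-1), zpow_add, zpow_neg_one, Equiv.Perm.mul_apply, ih]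
    change (x + (-(n : ℤ)) • α - α, t + S (-n) x - φ (x + (-(n : ℤ)) • α - α)) = _
    have e : x + (-(n : ℤ)) • α - α = x + (-1 + -(n : ℤ)) • α := by
      rw [add_smul, neg_smul 1, one_smul]; abel
    rw [e]
    congr 1
    have := S_add (-1 + -(n : ℤ)) 1 x
    rw [show (-1 + -(n : ℤ)) + 1 = -(n : ℤ) by ring] at this
    rw [this]
    unfold φ
    ring

/-! ### Discrete orbits -/

lemma discrete_of_finite (x : X) (t : ℝ) (hfin : ∀ R : ℝ, {n : ℤ | |S n x| ≤ R}.Finite) :
    IsDiscreteOrbit (orbit α φ (x, t)) := by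
  rintro w ⟨n, rfl⟩
  set w : X × ℝ := (cyl α φ ^ n) (x, t) with hw
  set E := {m : ℤ | |S m x| ≤ |S n x| + 1} with hE
  have hEf : E.Finite := hfin _
  set I : Set (X × ℝ) := (fun m : ℤ => (cyl α φ ^ m) (x, t)) '' E with hI
  have hIf : (I \ {w}).Finite := (hEf.image _).subset sdiff_subset
  refine ⟨{z | |z.2 - w.2| < 1} ∩ (I \ {w})ᶜ, ?_, ?_⟩
  · refine Filter.inter_mem ?_ ?_
    · refine IsOpen.mem_nhds ?_ ?_
      · exact isOpen_lt ((continuous_snd.sub continuous_const).abs) continuous_const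
      · show |w.2 - w.2| < 1
        simp
    · exact hIf.isClosed.isOpen_compl.mem_nhds fun hh => hh.2 rfl
  · apply Set.Subset.antisymm
    · rintro z ⟨⟨h1, h2⟩, ⟨m, rfl⟩⟩
      by_contra hne
      apply h2
      refine ⟨⟨m, ?_, rfl⟩, hne⟩
      have h1' : |(t + S m x) - (t + S n x)| < 1 := by
        have := h1
        rw [hw] at this
        simp only [cyl_zpow] at this
        exact this
      show |S m x| ≤ |S n x| + 1
      have h3 : |S m x - S n x| < 1 := by
        rw [show S m x - S n x = (t + S m x) - (t + S n x) by ring]; exact h1'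
      have := abs_sub_abs_le_abs_sub (S m x) (S n x)
      linarith
    · rintro z rfl
      refine ⟨⟨?_, fun hh => hh.2 rfl⟩, ⟨n, rfl⟩⟩
      show |w.2 - w.2| < 1
      simp

lemma F_int (k : ℕ) (m : ℤ) : F k (m • α) = f k (m : ZMod _) := by
  unfold F
  rw [smul_α]

lemma A_summable (m : ℤ) : Summable fun k => F k (m • α) :=
  Summable.of_nonneg_of_le (fun k => F_nonneg _ _)
    (fun k => by rw [F_int]; exact f_int_le k m) (ε_summable.mul_right |(m : ℝ)|)

lemma A_large (k : ℕ) (m : ℤ) (hm : q k ≤ 2 * m.natAbs) :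
    ((k : ℝ) + 1) / 2 ≤ ∑' k, F k (m • α) := by
  have hex : ∃ L, 2 * m.natAbs < q L := by
    refine ⟨2 * m.natAbs, ?_⟩
    have h1 := cube_le_q (2 * m.natAbs)
    have h2 : (2 * m.natAbs + 1) ≤ (2 * m.natAbs + 1) ^ 3 := Nat.le_self_pow (by norm_num) _
    omega
  classical
  set L := Nat.find hex with hL
  have h1 : 2 * m.natAbs < q L := Nat.find_spec hex
  have h2 : k < L := by
    by_contra hcon
    push Not at hcon
    have := q_mono hcon
    omega
  obtain ⟨l, hl⟩ : ∃ l, L = l + 1 := ⟨L - 1, by omega⟩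
  have h3 : q l ≤ 2 * m.natAbs := by
    by_contra hcon
    push Not at hcon
    exact Nat.find_min hex (show l < L by omega) hcon
  rw [hl] at h1
  have h4 : F l (m • α) = h l m.natAbs := by
    rw [F_int]; unfold f
    rw [nd_eq h1.le]
  have h5 : ((l : ℝ) + 1) / 2 ≤ h l m.natAbs := by
    have e : h l ((q l : ℝ) / 2) = ((l : ℝ) + 1) / 2 := by
      have := qR_pos l
      rw [h_small l (by linarith), ← ε_mul l]; ring
    rw [← e]
    apply h_mono
    have : (q l : ℝ) ≤ 2 * m.natAbs := by exact_mod_cast h3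
    linarith
  have h6 : (k : ℝ) ≤ l := by exact_mod_cast (show k ≤ l by omega)
  have h7 := (A_summable m).le_tsum l fun _ _ => F_nonneg _ _
  linarith

lemma S_int (n m : ℤ) : S n (m • α) = ∑' k, F k ((m + n) • α) - ∑' k, F k (m • α) := by
  rw [← (A_summable _).tsum_sub (A_summable _)]
  unfold S
  refine tsum_congr fun k => ?_
  rw [add_smul]

lemma S_int_finite (m : ℤ) (R : ℝ) : {n : ℤ | |S n (m • α)| ≤ R}.Finite := by
  obtain ⟨k, hk⟩ := exists_nat_gt (2 * (R + ∑' k, F k (m • α)))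
  refine (Set.finite_Icc (-(q k : ℤ) - m.natAbs) ((q k : ℤ) + m.natAbs)).subset ?_
  intro n hn
  have hn' : |S n (m • α)| ≤ R := hn
  have h1 := (le_abs_self _).trans hn'
  rw [S_int] at h1
  have h2 : ¬ q k ≤ 2 * (m + n).natAbs := by
    intro hcon
    have := A_large k (m + n) hcon
    linarith
  rw [Set.mem_Icc]
  omega

lemma discrete_int (m : ℤ) (t : ℝ) : IsDiscreteOrbit (orbit α φ (m • α, t)) :=
  discrete_of_finite _ _ (S_int_finite m)

lemma discrete_θ (m : ℤ) (t : ℝ) : IsDiscreteOrbit (orbit α φ (m • α + θ, t)) := by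
  refine discrete_of_finite _ _ fun R => ?_
  refine (S_int_finite m R).subset fun n hn => ?_
  have hn' : |S n (m • α + θ)| ≤ R := hn
  rw [S_θ, abs_neg] at hn'
  exact hn'

/-! ### Dense orbits -/

lemma X_ext {x y : X} (hxy : ∀ k, x.1 k = y.1 k) : x = y := Subtype.ext (funext hxy)

lemma agree {x y : X} {N k : ℕ} (hkN : k ≤ N) (hxy : x.1 N = y.1 N) : x.1 k = y.1 k := by
  have ha : (((y.1 N).valMinAbs : ℤ) : ZMod (q N)) = y.1 N := ZMod.coe_valMinAbs _
  rw [← X_cast hkN y ha, ← X_cast hkN x (ha.trans hxy.symm)]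

lemma tendsto_of_agree {y : X} (z : ℕ → X) (hz : ∀ i, (z i).1 (i + 1) = y.1 (i + 1)) :
    Tendsto z atTop (𝓝 y) := by
  rw [tendsto_subtype_rng, tendsto_pi_nhds]
  intro k
  refine Tendsto.congr' ?_ tendsto_const_nhds
  filter_upwards [eventually_ge_atTop k] with i hi
  exact (agree (by omega) (hz i)).symm

lemma minimal (x : X) : Dense (Set.range fun n : ℤ => x + n • α) := by
  intro y
  have : ∀ i : ℕ, ∃ n : ℤ, (x + n • α).1 (i + 1) = y.1 (i + 1) := by
    intro i
    refine ⟨((y - x).1 (i + 1)).valMinAbs, ?_⟩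
    rw [add_smul_α, ZMod.coe_valMinAbs]
    change x.1 (i + 1) + (y.1 (i + 1) - x.1 (i + 1)) = _
    ring
  choose n hn using this
  exact mem_closure_of_tendsto (tendsto_of_agree (fun i => x + n i • α) hn)
    (Eventually.of_forall fun i => ⟨n i, rfl⟩)

lemma dense_of_approx (x : X) (t : ℝ)
    (hap : ∀ (y : X) (s : ℝ) (N : ℕ), 1 ≤ N →
      ∃ n : ℤ, (x + n • α).1 N = y.1 N ∧ |S n x - s| ≤ 3 / (N + 1)) :
    Dense (orbit α φ (x, t)) := by
  rintro ⟨y, t'⟩
  choose n hn1 hn2 using fun i : ℕ => hap y (t' - t) (i + 1) (by omega)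
  refine mem_closure_of_tendsto (f := fun i => (cyl α φ ^ (n i)) (x, t)) (b := atTop) ?_
    (Eventually.of_forall fun i => ⟨n i, rfl⟩)
  simp only [cyl_zpow]
  refine (tendsto_of_agree (fun i => x + n i • α) hn1).prodMk_nhds ?_
  have h1 : Tendsto (fun i : ℕ => 3 * (1 / ((i : ℝ) + 1))) atTop (𝓝 (3 * 0)) :=
    (tendsto_one_div_add_atTop_nhds_zero_nat).const_mul 3
  rw [mul_zero] at h1
  rw [tendsto_iff_dist_tendsto_zero]
  refine squeeze_zero (fun _ => dist_nonneg) (fun i => ?_) h1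
  rw [Real.dist_eq, show t + S (n i) x - t' = S (n i) x - (t' - t) by ring]
  refine (hn2 i).trans ?_
  rw [mul_one_div]
  apply div_le_div_of_nonneg_left (by norm_num) (by positivity)
  push_cast
  linarith

/-- Partial sums over points of `X`. -/
noncomputable def GX (K : ℕ) (x : X) : ℝ := ∑ k ∈ Finset.range K, F k x

lemma GX_eq {K : ℕ} {x : X} {a : ℤ} (ha : (a : ZMod (q K)) = x.1 K) : GX K x = G K a := by
  unfold GX G
  refine Finset.sum_congr rfl fun k hk => ?_
  unfold F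
  rw [X_cast (Finset.mem_range.1 hk) x ha]

lemma GX_neg (K : ℕ) (x : X) : GX K (-x) = GX K x := Finset.sum_congr rfl fun k _ => F_neg k x

lemma GX_θ (K : ℕ) (x : X) : GX K (x + θ) = gs K - GX K x := by
  unfold GX gs
  rw [← Finset.sum_sub_distrib]
  exact Finset.sum_congr rfl fun k _ => F_θ k x

lemma GX_mono (x : X) : Monotone fun K => GX K x := by
  intro j k hjk
  unfold GX
  exact Finset.sum_le_sum_of_subset_of_nonneg (Finset.range_mono hjk) fun i _ _ => F_nonneg i x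

lemma low_pos {N J : ℕ} (hN : 1 ≤ N) (hNJ : N ≤ J) (x y : X) (s : ℝ) (a : ℕ)
    (ha : ((a : ℤ) : ZMod (q (J + 1))) = x.1 (J + 1)) (ha2 : 2 * a ≤ q (J + 1))
    (h1 : gs N + 2 * (N + 1) + 3 * (N + 1) + 1 ≤ GX (J + 1) x + s)
    (h2 : GX (J + 1) x + s ≤ gs (J + 1) / 2) :
    ∃ n : ℤ, (x + n • α).1 N = y.1 N ∧ |S n x - s| ≤ 2 / (N + 1) + 4 * (|s| + 3) / q J := by
  obtain ⟨p, p1, p2, p3⟩ := low_int hN hNJ (ZMod.val_lt (y.1 N)) h1 h2
  refine ⟨(p : ℤ) - a, ?_, ?_⟩
  · rw [add_smul_α, ← X_cast (show N ≤ J + 1 by omega) x ha, Int.cast_sub, add_sub_cancel, p1]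
    simp
  -- the number `n`
  set n : ℤ := (p : ℤ) - a with hn
  have hGa : GX (J + 1) x = G (J + 1) a := GX_eq ha
  have hGn : ∑ k ∈ Finset.range (J + 1), (F k (x + n • α) - F k x) = G (J + 1) p - G (J + 1) a := by
    rw [Finset.sum_sub_distrib]
    congr 1
    · refine GX_eq (x := x + n • α) (a := p) ?_
      rw [add_smul_α, ← ha, hn]
      push_cast
      ring
  have hN1 : (1 : ℝ) ≤ N := by exact_mod_cast hN
  have h2N : (2 : ℝ) / (N + 1) ≤ 1 := by
    rw [div_le_one (by linarith)]; linarith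
  have hGs : ∀ b : ℤ, G (J + 1) b = G J b + f J (b : ZMod _) := fun b => Finset.sum_range_succ _ _
  have hloc : |(n : ℝ)| ≤ (|s| + 1 + q J) * ((J + 1) * q J) := by
    have e1 : |h J p - h J a| ≤ |s| + 1 + q J := by
      have e2 : |G (J + 1) p - G (J + 1) a| ≤ |s| + 1 := by
        have e3 : G (J + 1) p - G (J + 1) a = (G (J + 1) p - (GX (J + 1) x + s)) + s := by
          rw [hGa]; ring
        rw [e3]
        refine (abs_add_le _ _).trans ?_
        linarith
      rw [hGs, hGs, f_eq J p3, f_eq J ha2] at e2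
      have g1 := G_nonneg J p
      have g2 := G_nonneg J a
      have g3 := (G_le J p).trans (gs_le J)
      have g4 := (G_le J a).trans (gs_le J)
      rw [abs_le] at e2 ⊢
      constructor <;> linarith [e2.1, e2.2]
    have e4 : η J * |(p : ℝ) - a| ≤ |h J p - h J a| := by
      rcases le_total (a : ℝ) p with c | c
      · rw [abs_of_nonneg (sub_nonneg.2 c)]
        exact ((h_bounds J c).1).trans (le_abs_self _)
      · rw [abs_of_nonpos (sub_nonpos.2 c), abs_sub_comm]
        have := ((h_bounds J c).1).trans (le_abs_self _)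
        linarith
    have e5 : |(n : ℝ)| = η J * |(p : ℝ) - a| * ((J + 1) * q J) := by
      rw [hn]
      push_cast
      have : η J * ((J + 1) * q J) = 1 := by
        unfold η
        have := qR_pos J
        have : (0 : ℝ) < (J : ℝ) + 1 := by positivity
        field_simp
      linear_combination (-|(p : ℝ) - a|) * this
    rw [e5]
    exact mul_le_mul_of_nonneg_right (e4.trans e1) (by have := qR_pos J; positivity)
  have htail : |∑' i, (F (i + (J + 1)) (x + n • α) - F (i + (J + 1)) x)| ≤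
      ε (J + 1) * |(n : ℝ)| * 2 := by
    rw [← Real.norm_eq_abs]
    refine tsum_of_norm_bounded (hasSum_geometric_two.mul_left (ε (J + 1) * |(n : ℝ)|)) fun i => ?_
    refine (F_diff _ _ _).trans ?_
    have := ε_geom (J + 1) i
    rw [add_comm] at this
    calc ε (i + (J + 1)) * |(n : ℝ)| ≤ ε (J + 1) * (1 / 2) ^ i * |(n : ℝ)| :=
          mul_le_mul_of_nonneg_right this (abs_nonneg _)
      _ = _ := by ring
  have hfin : ε (J + 1) * |(n : ℝ)| * 2 ≤ 4 * (|s| + 3) / q J := by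
    have hq4 : (4 : ℝ) ≤ q J := by exact_mod_cast four_le_q J
    obtain ⟨k1, k2⟩ := kk_le_q J
    have hs : 0 ≤ |s| := abs_nonneg s
    have hJ : (0 : ℝ) ≤ J := by positivity
    calc ε (J + 1) * |(n : ℝ)| * 2 ≤
          ε (J + 1) * ((|s| + 1 + q J) * ((J + 1) * q J)) * 2 :=
          mul_le_mul_of_nonneg_right (mul_le_mul_of_nonneg_left hloc (ε_pos _).le) (by norm_num)
      _ = 2 * ((J + 2) * (J + 1)) * (|s| + 1 + q J) / ((q J : ℝ) ^ 3 + 1) := by
          unfold ε
          rw [q_succ]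
          push_cast
          have := qR_pos J
          field_simp
          ring
      _ ≤ 4 * (|s| + 3) / q J := by
          set Q : ℝ := (q J : ℝ) with hQ
          rw [div_le_div_iff₀ (by positivity) (by linarith)]
          have c1 : ((J : ℝ) + 2) * (J + 1) ≤ 2 * Q := by nlinarith
          have c2 : |s| + 1 + Q ≤ (|s| + 3) * Q := by nlinarith
          have c3 : 2 * (((J : ℝ) + 2) * (J + 1)) * (|s| + 1 + Q) ≤ 2 * (2 * Q) * ((|s| + 3) * Q) := by
            apply mul_le_mul _ c2 (by positivity) (by positivity)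
            linarith
          calc 2 * (((J : ℝ) + 2) * (J + 1)) * (|s| + 1 + Q) * Q ≤
                2 * (2 * Q) * ((|s| + 3) * Q) * Q := mul_le_mul_of_nonneg_right c3 (by linarith)
            _ ≤ 4 * (|s| + 3) * (Q ^ 3 + 1) := by nlinarith
  have hS : S n x - s = (G (J + 1) p - (GX (J + 1) x + s)) +
      ∑' i, (F (i + (J + 1)) (x + n • α) - F (i + (J + 1)) x) := by
    have := (S_summable n x).sum_add_tsum_nat_add (J + 1)
    unfold S
    rw [← this, hGn, hGa]
    ring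
  rw [hS]
  refine (abs_add_le _ _).trans ?_
  linarith

lemma low {N J : ℕ} (hN : 1 ≤ N) (hNJ : N ≤ J) (x y : X) (s : ℝ)
    (h1 : gs N + 2 * (N + 1) + 3 * (N + 1) + 1 ≤ GX (J + 1) x + s)
    (h2 : GX (J + 1) x + s ≤ gs (J + 1) / 2) :
    ∃ n : ℤ, (x + n • α).1 N = y.1 N ∧ |S n x - s| ≤ 2 / (N + 1) + 4 * (|s| + 3) / q J := by
  have hc : (((x.1 (J + 1)).valMinAbs : ℤ) : ZMod (q (J + 1))) = x.1 (J + 1) := ZMod.coe_valMinAbs _
  have hb : 2 * (x.1 (J + 1)).valMinAbs.natAbs ≤ q (J + 1) := by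
    have h3 := nd_le (x.1 (J + 1))
    have h4 := q_even (J + 1)
    unfold nd at h3
    omega
  rcases le_total 0 (x.1 (J + 1)).valMinAbs with h0 | h0
  · refine low_pos hN hNJ x y s (x.1 (J + 1)).valMinAbs.natAbs ?_ hb h1 h2
    rw [Int.natAbs_of_nonneg h0, hc]
  · obtain ⟨n, n1, n2⟩ := low_pos hN hNJ (-x) (-y) s (x.1 (J + 1)).valMinAbs.natAbs (by
      rw [Int.ofNat_natAbs_of_nonpos h0, Int.cast_neg, hc]; rfl) hb (by rwa [GX_neg])
      (by rwa [GX_neg])
    refine ⟨-n, ?_, ?_⟩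
    · rw [add_smul_α] at n1 ⊢
      change -x.1 N + _ = - y.1 N at n1
      push_cast
      linear_combination -n1
    · rwa [S_neg] at n2

lemma approx (x : X) (hx : ∀ b : ℝ, ∃ K, b ≤ GX K x) (hx' : ∀ b : ℝ, ∃ K, b ≤ GX K (x + θ))
    (y : X) (s : ℝ) (N : ℕ) (hN : 1 ≤ N) :
    ∃ n : ℤ, (x + n • α).1 N = y.1 N ∧ |S n x - s| ≤ 3 / (N + 1) := by
  obtain ⟨K1, hK1⟩ := hx (gs N + 2 * (N + 1) + 3 * (N + 1) + 1 - s)
  obtain ⟨K2, hK2⟩ := hx' (gs N + 2 * (N + 1) + 3 * (N + 1) + 1 + s)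
  obtain ⟨K3, hK3⟩ := exists_nat_gt (4 * (|s| + 3) * (N + 1))
  set J := max (max K1 K2) (max K3 N) with hJ
  have j1 := hK1.trans (GX_mono x (show K1 ≤ J + 1 by omega))
  have j2 := hK2.trans (GX_mono (x + θ) (show K2 ≤ J + 1 by omega))
  have j3 : 4 * (|s| + 3) / q J ≤ 1 / (N + 1) := by
    rw [div_le_div_iff₀ (qR_pos J) (by positivity)]
    have h1 := (kk_le_q J).1
    have h2 : (K3 : ℝ) ≤ J := by exact_mod_cast (show K3 ≤ J by omega)
    linarith
  have j4 : (2 : ℝ) / (N + 1) + 1 / (N + 1) = 3 / (N + 1) := by ring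
  beta_reduce at j1 j2
  rcases le_total (GX (J + 1) x + s) (gs (J + 1) / 2) with hc | hc
  · obtain ⟨n, n1, n2⟩ := low (J := J) hN (by omega) x y s (by linarith) hc
    exact ⟨n, n1, by linarith⟩
  · obtain ⟨n, n1, n2⟩ := low (J := J) hN (by omega) (x + θ) (y + θ) (-s) (by linarith)
      (by rw [GX_θ]; linarith)
    refine ⟨n, ?_, ?_⟩
    · rw [add_right_comm, add_θ, add_θ] at n1
      exact add_right_cancel n1
    · rw [S_θ, abs_neg] at n2
      rw [show S n x - s = -(-S n x - -s) by ring, abs_neg]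
      linarith

lemma dense_of_unbounded (x : X) (t : ℝ) (hx : ∀ b : ℝ, ∃ K, b ≤ GX K x)
    (hx' : ∀ b : ℝ, ∃ K, b ≤ GX K (x + θ)) : Dense (orbit α φ (x, t)) :=
  dense_of_approx x t (approx x hx hx')

lemma int_of_bounded (x : X) (b : ℝ) (hb : ∀ K, GX K x < b) : ∃ m : ℤ, x = m • α := by
  obtain ⟨k0, hk0⟩ := exists_nat_gt (2 * b)
  set m := (x.1 k0).valMinAbs with hm
  have key : ∀ k, k0 ≤ k → (m : ZMod (q k)) = x.1 k ∧ (x.1 k).valMinAbs = m := by
    intro k hk
    induction k, hk using Nat.le_induction with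
    | base => exact ⟨ZMod.coe_valMinAbs _, rfl⟩
    | succ k hk ih =>
      have hf : F k x < b := by
        refine lt_of_le_of_lt ?_ (hb (k + 1))
        exact Finset.single_le_sum (f := fun k => F k x) (fun i _ => F_nonneg i x)
          (Finset.mem_range.2 (Nat.lt_succ_self k))
      have h1 : 2 * nd (x.1 (k + 1)) < q k := by
        by_contra hcon
        push Not at hcon
        have h2 : (q k : ℝ) / 2 ≤ nd (x.1 (k + 1)) := by
          have : (q k : ℝ) ≤ 2 * nd (x.1 (k + 1)) := by exact_mod_cast hcon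
          linarith
        have h3 := h_mono k h2
        have e : h k ((q k : ℝ) / 2) = ((k : ℝ) + 1) / 2 := by
          have := qR_pos k
          rw [h_small k (by linarith), ← ε_mul k]; ring
        rw [e] at h3
        have h4 : (k0 : ℝ) ≤ k := by exact_mod_cast hk
        have h5 : F k x = h k (nd (x.1 (k + 1))) := rfl
        linarith
      have h2 : (((x.1 (k + 1)).valMinAbs : ℤ) : ZMod (q k)) = x.1 k :=
        X_cast (Nat.le_succ k) x (ZMod.coe_valMinAbs _)
      have h3 : (x.1 k).valMinAbs = (x.1 (k + 1)).valMinAbs := by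
        rw [ZMod.valMinAbs_spec]
        refine ⟨h2.symm, ?_⟩
        unfold nd at h1
        rw [Set.mem_Ioc]
        omega
      have h4 : (x.1 (k + 1)).valMinAbs = m := by rw [← h3]; exact ih.2
      exact ⟨by rw [← h4]; exact ZMod.coe_valMinAbs _, h4⟩
  refine ⟨m, X_ext fun k => ?_⟩
  rw [smul_α]
  rcases le_total k0 k with hk | hk
  · exact (key k hk).1.symm
  · exact (X_cast hk x (key k0 le_rfl).1).symm

/-- A point with a dense orbit. -/
noncomputable def x0 : X := ⟨fun k => ((∑ j ∈ Finset.range k, q j : ℕ) : ZMod (q k)), fun k => by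
  rw [map_natCast, Finset.sum_range_succ, Nat.cast_add, ZMod.natCast_self, add_zero]⟩

lemma x0_sum (k : ℕ) : ∑ j ∈ Finset.range k, q j ≤ q k := by
  induction k with
  | zero => simp
  | succ k ih =>
    rw [Finset.sum_range_succ]
    have := q_growth k
    omega

lemma F_x0 (k : ℕ) : 1 ≤ F k x0 ∧ F k x0 ≤ 2 * (k + 1) := by
  have h1 := x0_sum k
  have hg := q_growth k
  have e : F k x0 = h k (∑ j ∈ Finset.range (k + 1), q j : ℕ) := by
    have : F k x0 = f k (((∑ j ∈ Finset.range (k + 1), q j : ℕ) : ℤ) : ZMod _) := by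
      unfold F x0
      rw [Int.cast_natCast]
    rw [this, f_eq]
    rw [Finset.sum_range_succ]
    omega
  have h2 : (q k : ℝ) ≤ (∑ j ∈ Finset.range (k + 1), q j : ℕ) := by
    rw [Finset.sum_range_succ]
    exact_mod_cast (show q k ≤ (∑ j ∈ Finset.range k, q j) + q k by omega)
  have h3 : ((∑ j ∈ Finset.range (k + 1), q j : ℕ) : ℝ) ≤ 2 * q k := by
    rw [Finset.sum_range_succ]
    exact_mod_cast (show (∑ j ∈ Finset.range k, q j) + q k ≤ 2 * q k by omega)
  rw [e, h_small k h3]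
  have h4 := ε_mul k
  have h5 := ε_pos k
  have hk : (0 : ℝ) ≤ k := by positivity
  constructor <;> nlinarith

lemma dense_x0 : Dense (orbit α φ (x0, 0)) := by
  refine dense_of_unbounded x0 0 (fun b => ?_) (fun b => ?_)
  · obtain ⟨K, hK⟩ := exists_nat_gt b
    refine ⟨K, ?_⟩
    have : ∑ k ∈ Finset.range K, (1 : ℝ) ≤ GX K x0 := Finset.sum_le_sum fun k _ => (F_x0 k).1
    simp at this
    linarith
  · obtain ⟨K, hK⟩ := exists_nat_gt b
    refine ⟨K + 1, ?_⟩
    have h1 : GX (K + 1) (x0 + θ) = ∑ k ∈ Finset.range K, F (k + 1) (x0 + θ) + F 0 (x0 + θ) :=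
      Finset.sum_range_succ' _ _
    have h2 : ∑ k ∈ Finset.range K, (1 : ℝ) ≤ ∑ k ∈ Finset.range K, F (k + 1) (x0 + θ) := by
      refine Finset.sum_le_sum fun k _ => ?_
      rw [F_θ]
      have h3 := H_large (show 1 ≤ k + 1 by omega)
      have h4 := (F_x0 (k + 1)).2
      have h5 := gs_nonneg (k + 1)
      have hk : (0 : ℝ) ≤ k := by positivity
      push_cast at h3 h4
      linarith
    have h3 := F_nonneg 0 (x0 + θ)
    simp at h2
    linarith

/-- There are a minimal rotation of a compact metrizable abelian group and a continuous real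
function whose cylindrical transformation has dense and discrete orbits and no other orbits. -/
theorem result : ∃ (X : Type) (_ : AddCommGroup X) (_ : TopologicalSpace X)
    (_ : IsTopologicalAddGroup X) (_ : CompactSpace X) (_ : TopologicalSpace.MetrizableSpace X)
    (α : X) (φ : X → ℝ), Continuous φ ∧ (∀ x : X, Dense (Set.range fun n : ℤ => x + n • α)) ∧
    (∃ z, Dense (orbit α φ z)) ∧ (∃ z, IsDiscreteOrbit (orbit α φ z)) ∧
    ∀ z, Dense (orbit α φ z) ∨ IsDiscreteOrbit (orbit α φ z) := by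
  refine ⟨X, inferInstance, inferInstance, inferInstance, inferInstance, inferInstance, α, φ,
    continuous_φ, minimal, ⟨_, dense_x0⟩, ⟨_, discrete_int 0 0⟩, ?_⟩
  rintro ⟨x, t⟩
  by_cases h1 : ∀ b : ℝ, ∃ K, b ≤ GX K x
  · by_cases h2 : ∀ b : ℝ, ∃ K, b ≤ GX K (x + θ)
    · exact Or.inl (dense_of_unbounded x t h1 h2)
    · right
      push Not at h2
      obtain ⟨b, hb⟩ := h2
      obtain ⟨m, hm⟩ := int_of_bounded _ b hb
      have e : x = m • α + θ := by
        rw [← hm, add_assoc, θ_add_θ, add_zero]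
      rw [e]
      exact discrete_θ m t
  · right
    push Not at h1
    obtain ⟨b, hb⟩ := h1
    obtain ⟨m, hm⟩ := int_of_bounded _ b hb
    rw [hm]
    exact discrete_int m t

end Pool.Agent.Results.MP_c1c973_an.DenseOrDiscrete
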